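import Pool.Agent.MP_96e1cb_lc.Final

set_option autoImplicit false

namespace Pool.Agent.Results.MP_96e1cb_lc.ProbePerfectHard

open Pool.Agent.MP_96e1cb_lc Pool.Agent.Lib.helper60 Turing Computability

/-- A polynomial-time algorithm recognising partitioned probe perfect graphs exists if and only if
P = NP. Moreover every language in NP reduces in polynomial time to this recognition problem. -/
theorem result :
    ((∃ d : ProbeInput → Bool,
        Nonempty (TM2ComputableInPolyTime ProbeInput.encode encodeBool d) ∧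
        ∀ I : ProbeInput, d I = true ↔ IsProbePerfect I) ↔
      ∀ L : Set (List Bool), InP L ↔ InNP L) ∧
    ∀ L : Set (List Bool), InNP L → ∃ f : List Bool → ProbeInput,
      Nonempty (TM2ComputableInPolyTime (fun w : List Bool => w) ProbeInput.encode f) ∧
      ∀ w, w ∈ L ↔ IsProbePerfect (f w) := by
  refine ⟨⟨?_, ?_⟩, fun L hL => probe_hard hL⟩
  · rintro ⟨d, hd, hc⟩ L
    exact ⟨InP.inNP, eq_of_algorithm hd hc L⟩
  · intro h
    obtain ⟨d, ⟨hd⟩, hc⟩ := algorithm_of_eq (fun L => (h L).2)
    exact ⟨fun I => d I.encode, ⟨TM2_precomp hd⟩, hc⟩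

end Pool.Agent.Results.MP_96e1cb_lc.ProbePerfectHard
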